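import Pool.Agent.V1163.TwoFano

/-!
# Edge-transitivity under fold involutions does not imply cut-percolation

The bigraph `G` consists of two disjoint copies of the Heawood graph `K` (points and lines of the
Fano plane).  For every automorphism `g` of `K` the twisted swap `(x, 0) ↦ (g x, 1)`,
`(y, 1) ↦ (g⁻¹ y, 0)` is a fold, so the group generated by the folds is transitive on the edges.
`K` has no folds, so every fold of `G` swaps the two copies, and a folding sequence started from one
edge never contains more than one edge of each copy.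
-/

set_option autoImplicit false

namespace Pool.Agent.Results.MP_98b297_co.TwoHeawood

open Pool.Agent.V1163.TwoFano

/-- the underlying graph of a bigraph with left vertices `A`, right vertices `B` and edges `E` -/
def graph {A B : Type} (E : A → B → Prop) : SimpleGraph (A ⊕ B) where
  Adj u v := (∃ a b, u = Sum.inl a ∧ v = Sum.inr b ∧ E a b) ∨
    (∃ a b, v = Sum.inl a ∧ u = Sum.inr b ∧ E a b)
  symm := ⟨fun _ _ h => h.symm⟩
  loopless := ⟨fun u h => by
    rcases h with ⟨a, b, h1, h2, -⟩ | ⟨a, b, h1, h2, -⟩ <;> rw [h1] at h2 <;> cases h2⟩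

/-- an automorphism preserving the sides: a pair of permutations preserving the edges -/
def IsAut {A B : Type} (E : A → B → Prop) (φ : Equiv.Perm A × Equiv.Perm B) : Prop :=
  ∀ a b, E (φ.1 a) (φ.2 b) ↔ E a b

/-- the action on all vertices -/
def act {A B : Type} (φ : Equiv.Perm A × Equiv.Perm B) : A ⊕ B → A ⊕ B := Sum.map φ.1 φ.2

/-- the fixed vertices -/
def Fix {A B : Type} (φ : Equiv.Perm A × Equiv.Perm B) : Set (A ⊕ B) := {v | act φ v = v}

/-- a cut-involution: an automorphism of order `2` such that `G - Fix φ` is disconnected -/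
def IsCutInvolution {A B : Type} (E : A → B → Prop) (φ : Equiv.Perm A × Equiv.Perm B) : Prop :=
  IsAut E φ ∧ φ ≠ 1 ∧ φ * φ = 1 ∧ ¬ ((graph E).induce (Fix φ)ᶜ).Preconnected

/-- a fold `(φ, L)`: `φ` is a cut-involution, `L`, `Fix φ` and `φ(L)` partition the vertex set, and
`L` is a union of connected components of `G - Fix φ` (it is closed under adjacency in
`G - Fix φ`) -/
def IsFold {A B : Type} (E : A → B → Prop) (φ : Equiv.Perm A × Equiv.Perm B) (L : Set (A ⊕ B)) :
    Prop :=
  IsCutInvolution E φ ∧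
  (∀ u v, u ∉ Fix φ → v ∉ Fix φ → (graph E).Adj u v → u ∈ L → v ∈ L) ∧
  L ∩ Fix φ = ∅ ∧ (act φ '' L) ∩ Fix φ = ∅ ∧ L ∩ (act φ '' L) = ∅ ∧
  L ∪ Fix φ ∪ (act φ '' L) = Set.univ

open Classical in
/-- the left-folding map on left vertices -/
noncomputable def foldA {A B : Type} (φ : Equiv.Perm A × Equiv.Perm B) (L : Set (A ⊕ B)) (a : A) :
    A :=
  if Sum.inl a ∈ L then a else φ.1 a

open Classical in
/-- the left-folding map on right vertices -/
noncomputable def foldB {A B : Type} (φ : Equiv.Perm A × Equiv.Perm B) (L : Set (A ⊕ B)) (b : B) :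
    B :=
  if Sum.inr b ∈ L then b else φ.2 b

/-- the group generated by the fold involutions -/
def foldGroup {A B : Type} (E : A → B → Prop) : Subgroup (Equiv.Perm A × Equiv.Perm B) :=
  Subgroup.closure {φ | ∃ L, IsFold E φ L}

/-- the edge set is nonempty and the group acts transitively on it -/
def EdgeTransitive {A B : Type} (E : A → B → Prop)
    (Γ : Subgroup (Equiv.Perm A × Equiv.Perm B)) : Prop :=
  (∃ a b, E a b) ∧ ∀ a b a' b', E a b → E a' b' → ∃ φ ∈ Γ, φ.1 a = a' ∧ φ.2 b = b'

/-- there is a cut-percolating sequence `s 0, ..., s m` of sets of edges -/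
def CutPercolating {A B : Type} (E : A → B → Prop) : Prop :=
  ∃ (m : ℕ) (s : ℕ → Set (A × B)), (∃ a b, E a b ∧ s 0 = {(a, b)}) ∧
    s m = {e | E e.1 e.2} ∧
    ∀ i < m, ∃ φ L, IsFold E φ L ∧
      s (i + 1) = {e | E e.1 e.2 ∧ (foldA φ L e.1, foldB φ L e.2) ∈ s i}

/-- adjacency of a left and a right vertex -/
theorem adj_iff {A B : Type} (E : A → B → Prop) (a : A) (b : B) :
    (graph E).Adj (Sum.inl a) (Sum.inr b) ↔ E a b := by
  constructor
  · rintro (⟨a', b', h1, h2, h⟩ | ⟨a', b', h1, h2, h⟩)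
    · cases h1
      cases h2
      exact h
    · cases h1
  · intro h
    exact Or.inl ⟨a, b, rfl, rfl, h⟩

theorem act_act {A B : Type} (φ : Equiv.Perm A × Equiv.Perm B) (h : φ * φ = 1) (v : A ⊕ B) :
    act φ (act φ v) = v := by
  have h1 : φ.1 * φ.1 = 1 := congrArg Prod.fst h
  have h2 : φ.2 * φ.2 = 1 := congrArg Prod.snd h
  rcases v with a | b
  · show Sum.inl ((φ.1 * φ.1) a) = Sum.inl a
    rw [h1]
    rfl
  · show Sum.inr ((φ.2 * φ.2) b) = Sum.inr b
    rw [h2]
    rfl

/-- exactly one of `v`, `φ v` is in `L` if `v` is moved -/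
theorem fold_swap {A B : Type} {E : A → B → Prop} {φ : Equiv.Perm A × Equiv.Perm B}
    {L : Set (A ⊕ B)} (h : IsFold E φ L) (v : A ⊕ B) (hv : act φ v ≠ v) :
    v ∈ L ↔ act φ v ∉ L := by
  obtain ⟨⟨-, -, hinv, -⟩, -, -, -, h5, h6⟩ := h
  constructor
  · intro hvL hvL'
    have : act φ v ∈ L ∩ (act φ '' L) := ⟨hvL', v, hvL, rfl⟩
    rw [h5] at this
    exact this
  · intro hvL
    have : v ∈ L ∪ Fix φ ∪ (act φ '' L) := by
      rw [h6]
      trivial
    rcases this with (h | h) | ⟨w, hw, hwv⟩
    · exact h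
    · exact absurd h hv
    · exfalso
      apply hvL
      rw [← hwv, act_act φ hinv]
      exact hw

/-- classification of the folds of the two copies of the Heawood graph -/
theorem fold_class {φ : Equiv.Perm (Bool × ZMod 7) × Equiv.Perm (Bool × ZMod 7)}
    {L : Set ((Bool × ZMod 7) ⊕ (Bool × ZMod 7))} (h : IsFold E φ L) :
    (∀ a, (φ.1 a).1 ≠ a.1) ∧ (∀ b, (φ.2 b).1 ≠ b.1) ∧
      ∃ c : Bool, (∀ a, Sum.inl a ∈ L ↔ a.1 = c) ∧ ∀ b, Sum.inr b ∈ L ↔ b.1 = c := by
  have hinv := h.1.2.2.1
  have key := two_core φ.1 φ.2 (fun a b hab => (h.1.1 a b).2 hab)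
    (fun a => by
      have h1 : φ.1 * φ.1 = 1 := congrArg Prod.fst hinv
      show (φ.1 * φ.1) a = a
      rw [h1]
      rfl)
    (fun a => Sum.inl a ∈ L) (fun b => Sum.inr b ∈ L)
    (fun a b hab ha hb => by
      have ha' : (Sum.inl a : (Bool × ZMod 7) ⊕ (Bool × ZMod 7)) ∉ Fix φ :=
        fun hh => ha (Sum.inl_injective hh)
      have hb' : (Sum.inr b : (Bool × ZMod 7) ⊕ (Bool × ZMod 7)) ∉ Fix φ :=
        fun hh => hb (Sum.inr_injective hh)
      have hadj := (adj_iff E a b).2 hab
      exact ⟨h.2.1 _ _ ha' hb' hadj, h.2.1 _ _ hb' ha' hadj.symm⟩)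
    (fun a ha => fold_swap h (Sum.inl a) (fun hh => ha (Sum.inl_injective hh)))
  rcases key with ⟨k1, k2⟩ | k
  · exfalso
    apply h.1.2.1
    refine Prod.ext ?_ ?_
    · ext1 a
      exact k1 a
    · ext1 b
      exact k2 b
  · exact k

/-- the twisted swaps are folds -/
theorem tw_fold (g : Equiv.Perm (ZMod 7)) (hg : Good g) :
    IsFold E (tw g, tw g) {v | Sum.elim Prod.fst Prod.fst v = false} := by
  have hcopy : ∀ v, Sum.elim Prod.fst Prod.fst (act (tw g, tw g) v) =
      !(Sum.elim Prod.fst Prod.fst v : Bool) := by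
    rintro (a | b) <;> rfl
  have hadj : ∀ u v, (graph E).Adj u v →
      (Sum.elim Prod.fst Prod.fst u : Bool) = Sum.elim Prod.fst Prod.fst v := by
    rintro u v (⟨a, b, rfl, rfl, h⟩ | ⟨a, b, rfl, rfl, h⟩)
    · exact h.1
    · exact h.1.symm
  have hfix : Fix (tw g, tw g) = ∅ := by
    ext v
    constructor
    · intro hv
      have := hcopy v
      rw [show act (tw g, tw g) v = v from hv] at this
      revert this
      cases (Sum.elim Prod.fst Prod.fst v : Bool) <;> simp
    · intro hv
      exact hv.elim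
  have hinv : (tw g, tw g) * (tw g, tw g) = (1 : Equiv.Perm (Bool × ZMod 7) × _) :=
    Prod.ext (tw_mul_self g) (tw_mul_self g)
  have himg : ∀ v, v ∈ act (tw g, tw g) '' {v | Sum.elim Prod.fst Prod.fst v = false} ↔
      (Sum.elim Prod.fst Prod.fst v : Bool) = true := by
    intro v
    constructor
    · rintro ⟨w, hw, rfl⟩
      rw [hcopy, show Sum.elim Prod.fst Prod.fst w = false from hw]
      rfl
    · intro hv
      refine ⟨act (tw g, tw g) v, ?_, act_act _ hinv v⟩
      show Sum.elim Prod.fst Prod.fst (act (tw g, tw g) v) = false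
      rw [hcopy, hv]
      rfl
  refine ⟨⟨fun a b => tw_E g hg a b, ?_, hinv, ?_⟩, ?_, ?_, ?_, ?_, ?_⟩
  · intro h
    have h1 : tw g = 1 := congrArg Prod.fst h
    have := congrArg (fun f : Equiv.Perm (Bool × ZMod 7) => (f (false, 0)).1) h1
    simp [tw_false] at this
  · intro hpre
    have hu : (Sum.inl (false, 0) : (Bool × ZMod 7) ⊕ (Bool × ZMod 7)) ∈ (Fix (tw g, tw g))ᶜ := by
      rw [hfix]
      simp
    have hv : (Sum.inl (true, 0) : (Bool × ZMod 7) ⊕ (Bool × ZMod 7)) ∈ (Fix (tw g, tw g))ᶜ := by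
      rw [hfix]
      simp
    obtain ⟨p⟩ := hpre ⟨_, hu⟩ ⟨_, hv⟩
    have hw : ∀ (x y : ((Fix (tw g, tw g))ᶜ : Set ((Bool × ZMod 7) ⊕ (Bool × ZMod 7))))
        (p : ((graph E).induce (Fix (tw g, tw g))ᶜ).Walk x y),
        (Sum.elim Prod.fst Prod.fst x.1 : Bool) = Sum.elim Prod.fst Prod.fst y.1 := by
      intro x y p
      induction p with
      | nil => rfl
      | cons hadj' _ ih => exact (hadj _ _ hadj').trans ih
    have := hw _ _ p
    simp at this
  · intro u v _ _ h hu
    show Sum.elim Prod.fst Prod.fst v = false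
    rw [← hadj u v h]
    exact hu
  · rw [hfix]
    simp
  · rw [hfix]
    simp
  · ext v
    constructor
    · rintro ⟨h1, h2⟩
      rw [himg] at h2
      rw [show Sum.elim Prod.fst Prod.fst v = false from h1] at h2
      cases h2
    · intro hv
      exact hv.elim
  · ext v
    constructor
    · intro _
      trivial
    · intro _
      rcases hb : (Sum.elim Prod.fst Prod.fst v : Bool) with _ | _
      · exact Or.inl (Or.inl hb)
      · exact Or.inr ((himg v).2 hb)

theorem tw_mem (g : Equiv.Perm (ZMod 7)) (hg : Good g) : (tw g, tw g) ∈ foldGroup E :=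
  Subgroup.subset_closure ⟨_, tw_fold g hg⟩

theorem edge_transitive : EdgeTransitive E (foldGroup E) := by
  refine ⟨⟨(false, 1), (false, 0), rfl, other_edge.1⟩, ?_⟩
  rintro ⟨i, x⟩ ⟨j, y⟩ ⟨i', x'⟩ ⟨j', y'⟩ ⟨h1, h2⟩ ⟨h3, h4⟩
  change i = j at h1
  change i' = j' at h3
  change I x y at h2
  change I x' y' at h4
  subst h1
  subst h3
  obtain ⟨g, hg, hgx, hgy⟩ := exists_good x y x' y' h2 h4
  obtain ⟨k, hk, hkx, hky⟩ := exists_good x' y' x y h4 h2
  have hkx' : k.symm x = x' := by rw [← hkx, Equiv.symm_apply_apply]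
  have hky' : k.symm y = y' := by rw [← hky, Equiv.symm_apply_apply]
  cases i <;> cases i'
  · refine ⟨(tw k, tw k) * (tw 1, tw 1), mul_mem (tw_mem k hk) (tw_mem 1 good_one), ?_, ?_⟩
    · show tw k (tw 1 (false, x)) = (false, x')
      rw [tw_false, tw_true]
      exact Prod.ext rfl hkx'
    · show tw k (tw 1 (false, y)) = (false, y')
      rw [tw_false, tw_true]
      exact Prod.ext rfl hky'
  · refine ⟨(tw g, tw g), tw_mem g hg, ?_, ?_⟩
    · show tw g (false, x) = (true, x')
      rw [tw_false, hgx]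
    · show tw g (false, y) = (true, y')
      rw [tw_false, hgy]
  · refine ⟨(tw k, tw k), tw_mem k hk, ?_, ?_⟩
    · show tw k (true, x) = (false, x')
      rw [tw_true, hkx']
    · show tw k (true, y) = (false, y')
      rw [tw_true, hky']
  · refine ⟨(tw g, tw g) * (tw 1, tw 1), mul_mem (tw_mem g hg) (tw_mem 1 good_one), ?_, ?_⟩
    · show tw g (tw 1 (true, x)) = (true, x')
      rw [tw_true, tw_false]
      exact Prod.ext rfl hgx
    · show tw g (tw 1 (true, y)) = (true, y')
      rw [tw_true, tw_false]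
      exact Prod.ext rfl hgy

theorem not_percolating : ¬ CutPercolating E := by
  rintro ⟨m, s, ⟨a, b, -, hs0⟩, hsm, hstep⟩
  have inv : ∀ i ≤ m, ∀ e ∈ s i, ∀ f ∈ s i, e.1.1 = f.1.1 → e = f := by
    intro i
    induction i with
    | zero =>
      intro _ e he f hf _
      rw [hs0] at he hf
      rw [Set.mem_singleton_iff] at he hf
      rw [he, hf]
    | succ i ih =>
      intro hi e he f hf hef
      obtain ⟨φ, L, hfold, hs⟩ := hstep i (by omega)
      rw [hs] at he hf
      obtain ⟨h1, h2, c, hc1, hc2⟩ := fold_class hfold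
      obtain ⟨he1, he2⟩ := he
      obtain ⟨hf1, hf2⟩ := hf
      by_cases hec : e.1.1 = c
      · have e1 : Sum.inl e.1 ∈ L := (hc1 _).2 hec
        have e2 : Sum.inr e.2 ∈ L := (hc2 _).2 (he1.1.symm.trans hec)
        have f1 : Sum.inl f.1 ∈ L := (hc1 _).2 (hef.symm.trans hec)
        have f2 : Sum.inr f.2 ∈ L := (hc2 _).2 (hf1.1.symm.trans (hef.symm.trans hec))
        unfold foldA foldB at he2 hf2
        rw [if_pos e1, if_pos e2] at he2
        rw [if_pos f1, if_pos f2] at hf2
        exact ih (by omega) e he2 f hf2 hef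
      · have e1 : Sum.inl e.1 ∉ L := fun h => hec ((hc1 _).1 h)
        have e2 : Sum.inr e.2 ∉ L := fun h => hec (he1.1.trans ((hc2 _).1 h))
        have f1 : Sum.inl f.1 ∉ L := fun h => hec (hef.trans ((hc1 _).1 h))
        have f2 : Sum.inr f.2 ∉ L := fun h => hec (hef.trans (hf1.1.trans ((hc2 _).1 h)))
        unfold foldA foldB at he2 hf2
        rw [if_neg e1, if_neg e2] at he2
        rw [if_neg f1, if_neg f2] at hf2
        have h3 := ih (by omega) _ he2 _ hf2 (by
          have g1 := h1 e.1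
          have g2 := h1 f.1
          rw [← hef] at g2
          show (φ.1 e.1).1 = (φ.1 f.1).1
          revert g1 g2
          cases (φ.1 e.1).1 <;> cases (φ.1 f.1).1 <;> cases e.1.1 <;> simp)
        have h4 := congrArg Prod.fst h3
        have h5 := congrArg Prod.snd h3
        exact Prod.ext (φ.1.injective h4) (φ.2.injective h5)
  have h := inv m le_rfl ((false, 1), (false, 0)) (by rw [hsm]; exact ⟨rfl, other_edge.1⟩)
    ((false, 2), (false, 0)) (by rw [hsm]; exact ⟨rfl, other_edge.2⟩) rfl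
  have h2 := congrArg (fun e : (Bool × ZMod 7) × (Bool × ZMod 7) => e.1.2) h
  revert h2
  decide

/-- **Theorem.** There is a (finite) bigraph whose fold group is transitive on its edges but which is
not cut-percolating. -/
theorem result : ∃ (A B : Type) (_ : Finite A) (_ : Finite B) (E : A → B → Prop),
    EdgeTransitive E (foldGroup E) ∧ ¬ CutPercolating E :=
  ⟨Bool × ZMod 7, Bool × ZMod 7, inferInstance, inferInstance, E, edge_transitive, not_percolating⟩

end Pool.Agent.Results.MP_98b297_co.TwoHeawood
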